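import Mathlib
import Pool.Agent.Helper58.PS.Defs
import Pool.Agent.Helper72.CA.Main

/-!
# PS-2: case A with bounded parameters

`HM` (exponent 7/4) with the fixed parameter `K = 8 (r + 1)`, `s = K^3`; the window and all losses are
`e^{O(W)}`.
-/

set_option autoImplicit false

namespace Pool.Agent.Helper10.PS

open Finset Pool.Agent.Helper58.LT Pool.Agent.Helper6.LehmerCount Pool.Agent.Helper6.Lehmer
open Pool.Agent.Helper72.CA

theorem card_LA' {k W α β : ℕ} (hW : 1 ≤ W) (hb : 4 * (W : ℝ) ≤ (β : ℝ) * Real.log 2)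
    (hab : (β : ℝ) * Real.log 2 - W ≤ (α : ℝ) * Real.log 2) :
    (#(LA k W α β) : ℝ) ≤
      Real.exp ((α : ℝ) * Real.log 2 - (β : ℝ) * Real.log 2 / 2 + 8 * W) := by
  have hw : (1 : ℝ) ≤ W := by exact_mod_cast hW
  have hH0 : H0 W β = Real.exp ((β : ℝ) * Real.log 2 - 4 * W) := H0_eq W β
  have hH1 : 1 ≤ H0 W β := by
    rw [hH0]
    apply Real.one_le_exp
    linarith
  have hg : H0 W β ≤ 4 * W * ((2 ^ α : ℕ) : ℝ) := by
    rw [hH0]
    push_cast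
    rw [two_pow_eq]
    have h1 : Real.exp ((β : ℝ) * Real.log 2 - 4 * W) ≤ Real.exp ((α : ℝ) * Real.log 2) :=
      Real.exp_le_exp.2 (by linarith)
    have h2 : (0 : ℝ) < Real.exp ((α : ℝ) * Real.log 2) := Real.exp_pos _
    nlinarith
  have hc := card_Lset k W (2 ^ α) (H0 W β) hW hH1 hg
  refine hc.trans ?_
  have hsq : Real.sqrt (H0 W β) = Real.exp (((β : ℝ) * Real.log 2 - 4 * W) / 2) := by
    rw [hH0, Real.sqrt_eq_rpow, ← Real.exp_mul]
    congr 1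
    ring
  rw [hsq]
  push_cast
  rw [two_pow_eq, div_le_iff₀ (Real.exp_pos _), ← Real.exp_add]
  have h24 : 24 * (W : ℝ) ^ 2 ≤ Real.exp (6 * W) := by
    have h1 : (W : ℝ) + 1 ≤ Real.exp W := Real.add_one_le_exp (W : ℝ)
    have h3 : (2 : ℝ) ^ 4 ≤ (Real.exp W) ^ 4 := pow_le_pow_left₀ (by norm_num) (by linarith) 4
    have h6 : Real.exp (6 * (W : ℝ)) = (Real.exp W) ^ 6 := by
      rw [← Real.exp_nat_mul]
      norm_num
    rw [h6]
    have h7 : (W : ℝ) ≤ Real.exp W / 2 + 0 := by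
      have h8 : Real.exp W = Real.exp (W / 2) ^ 2 := by
        rw [← Real.exp_nat_mul]
        congr 1
        push_cast
        ring
      have h9 : (W : ℝ) / 2 + 1 ≤ Real.exp (W / 2) := Real.add_one_le_exp _
      have h10 : ((W : ℝ) / 2 + 1) ^ 2 ≤ Real.exp (W / 2) ^ 2 := pow_le_pow_left₀ (by positivity) h9 2
      rw [h8]
      nlinarith [sq_nonneg (1 - (W : ℝ) / 2)]
    have h10 : 4 * (W : ℝ) ^ 2 ≤ (Real.exp W) ^ 2 := by nlinarith
    have h11 : (Real.exp (W : ℝ)) ^ 6 = (Real.exp W) ^ 2 * (Real.exp W) ^ 4 := by ring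
    have h12 : (0 : ℝ) ≤ (Real.exp (W : ℝ)) ^ 2 := by positivity
    rw [h11]
    nlinarith
  calc 24 * (W : ℝ) ^ 2 * Real.exp ((α : ℝ) * Real.log 2)
      ≤ Real.exp (6 * W) * Real.exp ((α : ℝ) * Real.log 2) := by gcongr
    _ = Real.exp (6 * W + (α : ℝ) * Real.log 2) := by rw [← Real.exp_add]
    _ ≤ _ := by
        apply Real.exp_le_exp.2
        linarith

theorem JsHM' {C : ℝ} (hHM : ∀ k Q N H : ℕ, 2 ≤ k → 16 ≤ Q → 1 ≤ N → 1 ≤ H →
      (N : ℝ) ≤ (Q : ℝ) ^ (((k : ℝ) + 2) / 2) →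
      ∀ I : Finset ℕ, I ⊆ Icc Q (H * Q) →
        (Js I (Pool.Agent.Helper73.HM.psq N) (k ^ 3) : ℝ) ≤
          Real.exp (C * (k : ℝ) ^ 10) * (H : ℝ) ^ (4 * k ^ 3) *
          (Q : ℝ) ^ ((2 : ℝ) * (k : ℝ) ^ 3 + 7 / 4) / N)
    {l W K β : ℕ} (hW : 1 ≤ W) (hK : 2 ≤ K) (hbl : 40 * (W : ℝ) ≤ (β : ℝ) * Real.log 2)
    (hN : (l : ℝ) * Real.log 2 ≤ ((β : ℝ) * Real.log 2 - 4 * W) * (((K : ℝ) + 2) / 2)) :
    (Js (KA W β) (psi (2 ^ l)) (K ^ 3) : ℝ) ≤
      Real.exp (C * (K : ℝ) ^ 10 + 4 * (K : ℝ) ^ 3 * (4 * W + 2) +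
        (2 * (K : ℝ) ^ 3 + 7 / 4) * ((β : ℝ) * Real.log 2) - (l : ℝ) * Real.log 2) := by
  have hw : (1 : ℝ) ≤ W := by exact_mod_cast hW
  set b : ℝ := (β : ℝ) * Real.log 2 with hb
  set L : ℝ := (l : ℝ) * Real.log 2 with hL
  have hH0 : H0 W β = Real.exp (b - 4 * W) := H0_eq W β
  set Q : ℕ := ⌈H0 W β⌉₊ with hQ
  set H : ℕ := ⌈2 * Real.exp (4 * W)⌉₊ with hH
  have hQge : H0 W β ≤ Q := Nat.le_ceil _
  have hHge : 2 * Real.exp (4 * W) ≤ (H : ℝ) := Nat.le_ceil _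
  have hHle : (H : ℝ) ≤ Real.exp (4 * W + 2) := by
    have h1 := (Nat.ceil_lt_add_one (show 0 ≤ 2 * Real.exp (4 * W) by positivity)).le
    have h2 : (1 : ℝ) ≤ Real.exp (4 * W) := Real.one_le_exp (by positivity)
    have h3 : (3 : ℝ) ≤ Real.exp 2 := by
      have := Real.add_one_le_exp (2 : ℝ)
      linarith
    rw [← hH] at h1
    rw [Real.exp_add]
    nlinarith
  have hQle : (Q : ℝ) ≤ Real.exp b := by
    have h1 : H0 W β ≤ ((2 ^ β : ℕ) : ℝ) := by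
      push_cast
      rw [hH0, two_pow_eq]
      apply Real.exp_le_exp.2
      rw [← hb]
      linarith
    have h2 : Q ≤ 2 ^ β := Nat.ceil_le.2 h1
    calc (Q : ℝ) ≤ ((2 ^ β : ℕ) : ℝ) := by exact_mod_cast h2
      _ = Real.exp b := by push_cast; rw [two_pow_eq]
  have hQ16 : 16 ≤ Q := by
    have h1 : (16 : ℝ) ≤ Q := by
      refine le_trans ?_ hQge
      rw [hH0]
      have := Real.add_one_le_exp (b - 4 * W)
      nlinarith
    exact_mod_cast h1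
  have hH1 : 1 ≤ H := by
    rw [hH]
    exact Nat.one_le_ceil_iff.2 (by positivity)
  have hNe : ((2 ^ l : ℕ) : ℝ) = Real.exp L := by push_cast; rw [two_pow_eq]
  have hNQ : ((2 ^ l : ℕ) : ℝ) ≤ (Q : ℝ) ^ (((K : ℝ) + 2) / 2) := by
    rw [hNe]
    calc Real.exp L ≤ Real.exp ((b - 4 * W) * (((K : ℝ) + 2) / 2)) := Real.exp_le_exp.2 hN
      _ = (Real.exp (b - 4 * W)) ^ (((K : ℝ) + 2) / 2) := by rw [Real.exp_mul]
      _ ≤ (Q : ℝ) ^ (((K : ℝ) + 2) / 2) := by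
          apply Real.rpow_le_rpow (Real.exp_pos _).le _ (by positivity)
          rw [← hH0]
          exact hQge
  have hsub : KA W β ⊆ Icc Q (H * Q) := by
    intro p hp
    rw [mem_KA] at hp
    rw [mem_Icc]
    refine ⟨Nat.ceil_le.2 hp.2.2, ?_⟩
    have h1 : ((2 ^ (β + 1) : ℕ) : ℝ) ≤ ((H * Q : ℕ) : ℝ) := by
      push_cast
      have e : (2 : ℝ) ^ (β + 1) = (2 * Real.exp (4 * W)) * H0 W β := by
        rw [pow_succ, two_pow_eq, ← hb, hH0, mul_assoc 2, ← Real.exp_add]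
        rw [show 4 * (W : ℝ) + (b - 4 * W) = b by ring, mul_comm]
      rw [e]
      have : 0 ≤ H0 W β := by rw [hH0]; positivity
      gcongr
    have h2 : 2 ^ (β + 1) ≤ H * Q := by exact_mod_cast h1
    omega
  have hmain := hHM K Q (2 ^ l) H hK hQ16 (Nat.one_le_two_pow) hH1 hNQ (KA W β) hsub
  have e2 : Js (KA W β) (psi (2 ^ l)) (K ^ 3) =
      Js (KA W β) (Pool.Agent.Helper73.HM.psq (2 ^ l)) (K ^ 3) := by
    apply Js_congr
    intro p hp
    rw [mem_KA] at hp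
    exact psi_prime hp.2.1
  rw [e2]
  refine hmain.trans ?_
  rw [hNe]
  have f1 : (H : ℝ) ^ (4 * K ^ 3) ≤ Real.exp (4 * (K : ℝ) ^ 3 * (4 * W + 2)) := by
    calc (H : ℝ) ^ (4 * K ^ 3) ≤ (Real.exp (4 * W + 2)) ^ (4 * K ^ 3) :=
          pow_le_pow_left₀ (Nat.cast_nonneg _) hHle _
      _ = _ := by
          rw [← Real.exp_nat_mul]
          congr 1
          push_cast
          ring
  have f2 : (Q : ℝ) ^ ((2 : ℝ) * (K : ℝ) ^ 3 + 7 / 4) ≤
      Real.exp ((2 * (K : ℝ) ^ 3 + 7 / 4) * b) := by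
    calc (Q : ℝ) ^ ((2 : ℝ) * (K : ℝ) ^ 3 + 7 / 4)
        ≤ (Real.exp b) ^ ((2 : ℝ) * (K : ℝ) ^ 3 + 7 / 4) :=
          Real.rpow_le_rpow (Nat.cast_nonneg _) hQle (by positivity)
      _ = _ := by
          rw [← Real.exp_mul]
          congr 1
          ring
  rw [div_le_iff₀ (Real.exp_pos _)]
  calc Real.exp (C * (K : ℝ) ^ 10) * (H : ℝ) ^ (4 * K ^ 3) *
        (Q : ℝ) ^ ((2 : ℝ) * (K : ℝ) ^ 3 + 7 / 4)
      ≤ Real.exp (C * (K : ℝ) ^ 10) * Real.exp (4 * (K : ℝ) ^ 3 * (4 * W + 2)) *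
        Real.exp ((2 * (K : ℝ) ^ 3 + 7 / 4) * b) := by gcongr
    _ = _ := by
        rw [← Real.exp_add, ← Real.exp_add, ← Real.exp_add]
        congr 1
        ring

/-- the real parameters -/
structure RB (w ρ a b L : ℝ) : Prop where
  w1 : 1 ≤ w
  r2 : 2 ≤ ρ
  size1 : (2 * ρ + 1) * b - w ≤ L
  size2 : L ≤ (2 * ρ + 1) * b + w
  a1 : b - w ≤ a
  a2 : a ≤ b + w
  bl : 40 * ρ * w ≤ b

theorem RB.sidon {w ρ a b L : ℝ} (h : RB w ρ a b L) : 3 * ρ + 2 * ρ * b ≤ L := by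
  have h1 := h.size1
  have h2 := h.bl
  have h3 := h.w1
  have h4 := h.r2
  nlinarith

theorem RB.sqfree {w ρ a b L : ℝ} (h : RB w ρ a b L) : 3 * ρ + 2 * ρ * a ≤ L := by
  have h1 := h.size1
  have h2 := h.bl
  have h3 := h.w1
  have h4 := h.r2
  have h5 := h.a2
  nlinarith

theorem RB.hm {w ρ a b L : ℝ} (h : RB w ρ a b L) : L ≤ (b - 4 * w) * (4 * ρ + 5) := by
  have h1 := h.size2
  have h2 := h.bl
  have h3 := h.w1
  have h4 := h.r2
  have h6 : 40 * ρ * w ≤ b := h2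
  have h7 : 0 ≤ w := by linarith
  nlinarith [mul_nonneg (show (0 : ℝ) ≤ ρ by linarith) h7]

/-- exponents of `mom r (r-1)` -/
noncomputable def m1B (w ρ a b : ℝ) : ℝ := 2 + 2 * ρ * (a - b / 2 + 8 * w) + ρ ^ 2 + (ρ - 2) * (b + 1)

/-- second bound -/
noncomputable def m2B (w ρ a b : ℝ) : ℝ :=
  2 + (ρ - 1) * (2 * ρ + b + 1) + ρ * (a - b / 2 + 8 * w) + ρ ^ 2 * w

/-- exponent of `J_s` -/
noncomputable def qB (C K w b L : ℝ) : ℝ :=
  C * K ^ 10 + 4 * K ^ 3 * (4 * w + 2) + (2 * K ^ 3 + 7 / 4) * b - L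

/-- the bound for `mom r (r - 1)` -/
theorem momR' {l W k h α β : ℕ} (hW : 1 ≤ W)
    (hR : RB (W : ℝ) ((h + 2 : ℕ) : ℝ) ((α : ℝ) * Real.log 2) ((β : ℝ) * Real.log 2)
      ((l : ℝ) * Real.log 2)) :
    (mom (LA k W α β) (psi (2 ^ l)) (KA W β) (psi (2 ^ l)) (h + 2) (h + 1) : ℝ) ≤
        Real.exp (m1B W ((h + 2 : ℕ) : ℝ) ((α : ℝ) * Real.log 2) ((β : ℝ) * Real.log 2)) ∨
    (mom (LA k W α β) (psi (2 ^ l)) (KA W β) (psi (2 ^ l)) (h + 2) (h + 1) : ℝ) ≤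
        Real.exp (m2B W ((h + 2 : ℕ) : ℝ) ((α : ℝ) * Real.log 2) ((β : ℝ) * Real.log 2)) := by
  have hr : 2 ≤ h + 2 := by omega
  have hS := cond_pow hr hR.sidon
  have hS2 := cond_pow hr hR.sqfree
  have hkb := key_bound (LA k W α β) (psi (2 ^ l)) (KA W β) (psi (2 ^ l)) h (by
    intro u hu v hv huv
    refine sidon_primes (P := 2 ^ (β + 1)) (by omega) hS u v ?_ ?_ huv
    · intro i
      have := mem_KA.1 (mem_tup.1 hu i)
      exact ⟨this.2.1, this.1.le⟩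
    · intro i
      have := mem_KA.1 (mem_tup.1 hv i)
      exact ⟨this.2.1, this.1.le⟩)
  have hJs := Js_sqfree (W := W) (by omega) hS2 (LA k W α β) (fun m hm => LA_mem hm)
  have hb4 : 4 * (W : ℝ) ≤ (β : ℝ) * Real.log 2 := by
    have h1 := hR.bl
    have h2 := hR.w1
    have h3 := hR.r2
    nlinarith
  have hlam := card_LA' (k := k) hW hb4 hR.a1
  have hkap := card_KA W β
  set M : ℝ := (mom (LA k W α β) (psi (2 ^ l)) (KA W β) (psi (2 ^ l)) (h + 2) (h + 1) : ℝ) with hM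
  set lam' : ℝ := (#(LA k W α β) : ℝ) with hlam'
  set kap : ℝ := (#(KA W β) : ℝ) with hkap'
  set a : ℝ := (α : ℝ) * Real.log 2 with ha
  set b : ℝ := (β : ℝ) * Real.log 2 with hb
  have hl0 : 0 ≤ lam' := Nat.cast_nonneg _
  have hk0 : 0 ≤ kap := Nat.cast_nonneg _
  set u : ℝ := a - b / 2 + 8 * W with hu
  have hh0 : (0 : ℝ) ≤ h := Nat.cast_nonneg h
  have two_e : (2 : ℝ) ≤ Real.exp 1 := by
    have := Real.add_one_le_exp (1 : ℝ)
    linarith
  -- first term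
  have t1 : 2 * (lam' ^ (2 * (h + 2)) * (h + 1).factorial * kap ^ h) ≤
      Real.exp (1 + (2 * ((h : ℝ) + 2) * u + ((h : ℝ) + 2) ^ 2 + h * (b + 1))) := by
    have p1 : lam' ^ (2 * (h + 2)) ≤ Real.exp (2 * ((h : ℝ) + 2) * u) := by
      calc lam' ^ (2 * (h + 2)) ≤ (Real.exp u) ^ (2 * (h + 2)) := pow_le_pow_left₀ hl0 hlam _
        _ = _ := by
            rw [← Real.exp_nat_mul]
            congr 1
            push_cast
            ring
    have p2 : ((h + 1).factorial : ℝ) ≤ Real.exp (((h : ℝ) + 2) ^ 2) := by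
      refine (factorial_le_exp (h + 1)).trans (Real.exp_le_exp.2 ?_)
      push_cast
      nlinarith
    have p3 : kap ^ h ≤ Real.exp (h * (b + 1)) := by
      calc kap ^ h ≤ (Real.exp (b + 1)) ^ h := pow_le_pow_left₀ hk0 hkap _
        _ = _ := by rw [← Real.exp_nat_mul]
    calc 2 * (lam' ^ (2 * (h + 2)) * (h + 1).factorial * kap ^ h)
        ≤ Real.exp 1 * (Real.exp (2 * ((h : ℝ) + 2) * u) * Real.exp (((h : ℝ) + 2) ^ 2) *
          Real.exp (h * (b + 1))) := by gcongr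
      _ = _ := by rw [← Real.exp_add, ← Real.exp_add, ← Real.exp_add]
  -- second term
  have t2 : (2 * ((h : ℝ) + 1) ^ 2 * kap) ^ (h + 1) *
      (Js (LA k W α β) (psi (2 ^ l)) (h + 2) : ℝ) ≤
      Real.exp (((h : ℝ) + 1) * (2 * ((h : ℝ) + 2) + b + 1) +
        (((h : ℝ) + 2) * u + ((h : ℝ) + 2) ^ 2 * W)) := by
    have q1 : 2 * ((h : ℝ) + 1) ^ 2 ≤ Real.exp (2 * ((h : ℝ) + 2)) := by
      have h1 : (h : ℝ) + 2 ≤ Real.exp ((h : ℝ) + 1) := by
        have := Real.add_one_le_exp ((h : ℝ) + 1)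
        linarith
      have h2 : ((h : ℝ) + 1) ^ 2 ≤ (Real.exp ((h : ℝ) + 1)) ^ 2 :=
        pow_le_pow_left₀ (by linarith) (by linarith) 2
      have h3 : (Real.exp ((h : ℝ) + 1)) ^ 2 = Real.exp (2 * ((h : ℝ) + 1)) := by
        rw [← Real.exp_nat_mul]
        norm_num
      rw [h3] at h2
      calc 2 * ((h : ℝ) + 1) ^ 2 ≤ Real.exp 1 * Real.exp (2 * ((h : ℝ) + 1)) := by gcongr
        _ = Real.exp (1 + 2 * ((h : ℝ) + 1)) := by rw [← Real.exp_add]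
        _ ≤ _ := Real.exp_le_exp.2 (by linarith)
    have q2 : (2 * ((h : ℝ) + 1) ^ 2 * kap) ^ (h + 1) ≤
        Real.exp (((h : ℝ) + 1) * (2 * ((h : ℝ) + 2) + b + 1)) := by
      calc (2 * ((h : ℝ) + 1) ^ 2 * kap) ^ (h + 1)
          ≤ (Real.exp (2 * ((h : ℝ) + 2)) * Real.exp (b + 1)) ^ (h + 1) := by gcongr
        _ = _ := by
            rw [← Real.exp_add, ← Real.exp_nat_mul]
            congr 1
            push_cast
            ring
    have q3 : (Js (LA k W α β) (psi (2 ^ l)) (h + 2) : ℝ) ≤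
        Real.exp (((h : ℝ) + 2) * u + ((h : ℝ) + 2) ^ 2 * W) := by
      have h1 : (Js (LA k W α β) (psi (2 ^ l)) (h + 2) : ℝ) ≤
          lam' ^ (h + 2) * 2 ^ ((h + 2) * (h + 2) * W) := by
        rw [hlam']
        exact_mod_cast hJs
      refine h1.trans ?_
      have h2 : lam' ^ (h + 2) ≤ Real.exp (((h : ℝ) + 2) * u) := by
        calc lam' ^ (h + 2) ≤ (Real.exp u) ^ (h + 2) := pow_le_pow_left₀ hl0 hlam _
          _ = _ := by
              rw [← Real.exp_nat_mul]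
              congr 1
              push_cast
              ring
      have h3 : (2 : ℝ) ^ ((h + 2) * (h + 2) * W) ≤ Real.exp (((h : ℝ) + 2) ^ 2 * W) := by
        calc (2 : ℝ) ^ ((h + 2) * (h + 2) * W) ≤ (Real.exp 1) ^ ((h + 2) * (h + 2) * W) :=
              pow_le_pow_left₀ (by norm_num) two_e _
          _ = _ := by
              rw [← Real.exp_nat_mul]
              congr 1
              push_cast
              ring
      calc lam' ^ (h + 2) * 2 ^ ((h + 2) * (h + 2) * W)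
          ≤ Real.exp (((h : ℝ) + 2) * u) * Real.exp (((h : ℝ) + 2) ^ 2 * W) := by gcongr
        _ = _ := by rw [← Real.exp_add]
    calc _ ≤ Real.exp (((h : ℝ) + 1) * (2 * ((h : ℝ) + 2) + b + 1)) *
          Real.exp (((h : ℝ) + 2) * u + ((h : ℝ) + 2) ^ 2 * W) := by gcongr
      _ = _ := by rw [← Real.exp_add]
  have hsum : M ≤ Real.exp (1 + (2 * ((h : ℝ) + 2) * u + ((h : ℝ) + 2) ^ 2 + h * (b + 1))) +
      Real.exp (((h : ℝ) + 1) * (2 * ((h : ℝ) + 2) + b + 1) +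
        (((h : ℝ) + 2) * u + ((h : ℝ) + 2) ^ 2 * W)) := hkb.trans (add_le_add t1 t2)
  rcases le_total (1 + (2 * ((h : ℝ) + 2) * u + ((h : ℝ) + 2) ^ 2 + h * (b + 1)))
      (((h : ℝ) + 1) * (2 * ((h : ℝ) + 2) + b + 1) +
        (((h : ℝ) + 2) * u + ((h : ℝ) + 2) ^ 2 * W)) with hle | hle
  · right
    have h1 := Real.exp_le_exp.2 hle
    have h2 : M ≤ 2 * Real.exp (((h : ℝ) + 1) * (2 * ((h : ℝ) + 2) + b + 1) +
        (((h : ℝ) + 2) * u + ((h : ℝ) + 2) ^ 2 * W)) := by linarith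
    refine h2.trans ?_
    calc _ ≤ Real.exp 1 * Real.exp (((h : ℝ) + 1) * (2 * ((h : ℝ) + 2) + b + 1) +
        (((h : ℝ) + 2) * u + ((h : ℝ) + 2) ^ 2 * W)) := by gcongr
      _ ≤ _ := by
          rw [← Real.exp_add]
          apply Real.exp_le_exp.2
          unfold m2B
          push_cast
          nlinarith
  · left
    have h1 := Real.exp_le_exp.2 hle
    have h2 : M ≤ 2 * Real.exp (1 + (2 * ((h : ℝ) + 2) * u + ((h : ℝ) + 2) ^ 2 +
        h * (b + 1))) := by linarith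
    refine h2.trans ?_
    calc _ ≤ Real.exp 1 * Real.exp (1 + (2 * ((h : ℝ) + 2) * u + ((h : ℝ) + 2) ^ 2 +
        h * (b + 1))) := by gcongr
      _ ≤ _ := by
          rw [← Real.exp_add]
          apply Real.exp_le_exp.2
          unfold m1B
          push_cast
          nlinarith

theorem momB {C : ℝ} (hHM : ∀ k Q N H : ℕ, 2 ≤ k → 16 ≤ Q → 1 ≤ N → 1 ≤ H →
      (N : ℝ) ≤ (Q : ℝ) ^ (((k : ℝ) + 2) / 2) →
      ∀ I : Finset ℕ, I ⊆ Icc Q (H * Q) →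
        (Js I (Pool.Agent.Helper73.HM.psq N) (k ^ 3) : ℝ) ≤
          Real.exp (C * (k : ℝ) ^ 10) * (H : ℝ) ^ (4 * k ^ 3) *
          (Q : ℝ) ^ ((2 : ℝ) * (k : ℝ) ^ 3 + 7 / 4) / N)
    {l W k r α β : ℕ} (hW : 1 ≤ W) (hr : 2 ≤ r)
    (hR : RB (W : ℝ) (r : ℝ) ((α : ℝ) * Real.log 2) ((β : ℝ) * Real.log 2)
      ((l : ℝ) * Real.log 2)) {t : ℝ}
    (ht : t = 1 / ((r : ℝ) * (((8 * r + 8 : ℕ) : ℝ) ^ 3 - r))) (hexp : 0 ≤ 1 - 1 / (r : ℝ) - t)
    (ht0 : 0 ≤ t) :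
    ∃ m : ℝ, (m = m1B W r ((α : ℝ) * Real.log 2) ((β : ℝ) * Real.log 2) ∨
      m = m2B W r ((α : ℝ) * Real.log 2) ((β : ℝ) * Real.log 2)) ∧
    (mom (LA k W α β) (psi (2 ^ l)) (KA W β) (psi (2 ^ l)) 1 r : ℝ) ≤
      Real.exp (m / r + (1 - 1 / (r : ℝ) - t) * jA r ((β : ℝ) * Real.log 2) +
        t * qB C ((8 * r + 8 : ℕ) : ℝ) W ((β : ℝ) * Real.log 2) ((l : ℝ) * Real.log 2)) := by
  obtain ⟨h, rfl⟩ : ∃ h, r = h + 2 := ⟨r - 2, by omega⟩
  have hS := cond_pow hr hR.sidon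
  have hJr := Js_primes (by omega) hS (KA W β) (fun p hp => by
    have := mem_KA.1 hp
    exact ⟨this.2.1, this.1.le⟩)
  have hw := hR.w1
  have hρ := hR.r2
  have hbl := hR.bl
  have hJs := JsHM' hHM (l := l) (K := 8 * (h + 2) + 8) (β := β) hW (by omega) (by nlinarith) (by
    have h1 := hR.hm
    refine h1.trans (le_of_eq ?_)
    push_cast
    ring)
  have hkap := card_KA W β
  have hs : h + 2 < (8 * (h + 2) + 8) ^ 3 := by
    have h1 : 8 * (h + 2) + 8 ≤ (8 * (h + 2) + 8) ^ 3 := Nat.le_self_pow (by norm_num) _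
    omega
  have heb := energy_bound (LA k W α β) (psi (2 ^ l)) (KA W β) (psi (2 ^ l)) h
    ((8 * (h + 2) + 8) ^ 3) hs t (by rw [ht]; push_cast; ring)
  have hm := momR' (k := k) hW hR
  set b : ℝ := (β : ℝ) * Real.log 2 with hb
  have hJr' : (Js (KA W β) (psi (2 ^ l)) (h + 2) : ℝ) ≤ Real.exp (jA ((h + 2 : ℕ) : ℝ) b) := by
    have h1 : (Js (KA W β) (psi (2 ^ l)) (h + 2) : ℝ) ≤
        ((h + 2).factorial : ℝ) * (#(KA W β) : ℝ) ^ (h + 2) := by exact_mod_cast hJr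
    refine h1.trans ?_
    calc ((h + 2).factorial : ℝ) * (#(KA W β) : ℝ) ^ (h + 2)
        ≤ Real.exp (((h + 2 : ℕ) : ℝ) ^ 2) * (Real.exp (b + 1)) ^ (h + 2) := by
          gcongr
          exact factorial_le_exp (h + 2)
      _ = _ := by
          rw [← Real.exp_nat_mul, ← Real.exp_add]
          rfl
  have e2 : ((h : ℝ) + 2) = ((h + 2 : ℕ) : ℝ) := by push_cast; ring
  rw [e2] at heb
  have main : ∀ m : ℝ, (mom (LA k W α β) (psi (2 ^ l)) (KA W β) (psi (2 ^ l)) (h + 2) (h + 1) : ℝ) ≤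
      Real.exp m → (mom (LA k W α β) (psi (2 ^ l)) (KA W β) (psi (2 ^ l)) 1 (h + 2) : ℝ) ≤
      Real.exp (m / ((h + 2 : ℕ) : ℝ) + (1 - 1 / ((h + 2 : ℕ) : ℝ) - t) * jA ((h + 2 : ℕ) : ℝ) b +
        t * qB C ((8 * (h + 2) + 8 : ℕ) : ℝ) W b ((l : ℝ) * Real.log 2)) := by
    intro m hm
    refine heb.trans ?_
    have hJs' : (Js (KA W β) (psi (2 ^ l)) ((8 * (h + 2) + 8) ^ 3) : ℝ) ≤
        Real.exp (qB C ((8 * (h + 2) + 8 : ℕ) : ℝ) W b ((l : ℝ) * Real.log 2)) := hJs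
    calc _ ≤ (Real.exp m) ^ (1 / ((h + 2 : ℕ) : ℝ)) *
          (Real.exp (jA ((h + 2 : ℕ) : ℝ) b)) ^ (1 - 1 / ((h + 2 : ℕ) : ℝ) - t) *
          (Real.exp (qB C ((8 * (h + 2) + 8 : ℕ) : ℝ) W b ((l : ℝ) * Real.log 2))) ^ t := by
          gcongr
      _ = _ := by
          rw [← Real.exp_mul, ← Real.exp_mul, ← Real.exp_mul, ← Real.exp_add, ← Real.exp_add]
          congr 1
          ring
  rcases hm with hm | hm
  · exact ⟨_, Or.inl rfl, main _ hm⟩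
  · exact ⟨_, Or.inr rfl, main _ hm⟩

/-- the facts about `t` -/
theorem t_facts {ρ s t : ℝ} (hr2 : 2 ≤ ρ) (hs : ρ + 4 ≤ s) (ht : t = 1 / (ρ * (s - ρ))) :
    0 < t ∧ t ≤ 1 ∧ t * ρ ≤ 1 / 2 ∧ t * s = 1 / ρ + t * ρ ∧ 0 ≤ 1 - 1 / ρ - t := by
  have hd : 4 ≤ s - ρ := by linarith
  have hρ : 0 < ρ := by linarith
  have hd0 : 0 < s - ρ := by linarith
  have hp : 0 < ρ * (s - ρ) := mul_pos hρ hd0
  have hp8 : 8 ≤ ρ * (s - ρ) := by nlinarith
  have ht0 : 0 < t := by rw [ht]; positivity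
  have htp : t * (ρ * (s - ρ)) = 1 := by rw [ht]; field_simp
  have ht8 : t ≤ 1 / 8 := by
    rw [ht]
    exact one_div_le_one_div_of_le (by norm_num) hp8
  have htr : t * ρ ≤ 1 / 4 := by
    have h1 : t * ρ * 4 ≤ t * ρ * (s - ρ) :=
      mul_le_mul_of_nonneg_left hd (by positivity)
    have h2 : t * ρ * (s - ρ) = 1 := by rw [mul_assoc]; exact htp
    linarith
  have hi : 1 / ρ ≤ 1 / 2 := one_div_le_one_div_of_le (by norm_num) hr2
  refine ⟨ht0, by linarith, by linarith, ?_, by linarith⟩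
  have h1 : ρ * (t * s) = ρ * (1 / ρ + t * ρ) := by
    have : ρ * (1 / ρ) = 1 := by field_simp
    rw [mul_add, this]
    nlinarith
  exact mul_left_cancel₀ hρ.ne' h1

/-- the constant of the error term -/
noncomputable def MB (C ρ K : ℝ) : ℝ := 200 + 20 * ρ ^ 2 + C * K ^ 10

theorem num1B {w ρ a b L t C K : ℝ} (h : RB w ρ a b L) (hC : 0 ≤ C)
    (hs : ρ + 4 ≤ K ^ 3) (ht : t = 1 / (ρ * (K ^ 3 - ρ))) :
    (L / 2 - b / 2 + w + 1) + (2 * ρ + 11) + m1B w ρ a b / ρ + (1 - 1 / ρ - t) * jA ρ b +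
      t * qB C K w b L ≤ L - t * b + MB C ρ K * w := by
  obtain ⟨ht0, ht1, htr, hts, -⟩ := t_facts h.r2 hs ht
  have hr2 := h.r2
  have hρ : ρ ≠ 0 := by linarith
  have hρ0 : 0 < ρ := by linarith
  have hw1 := h.w1
  have hb0 : 0 ≤ b := by
    have := h.bl
    nlinarith
  set i : ℝ := 1 / ρ with hi
  have hiρ : i * ρ = 1 := by rw [hi]; field_simp
  have hi0 : 0 < i := by rw [hi]; positivity
  have hi2 : i ≤ 1 / 2 := by rw [hi]; exact one_div_le_one_div_of_le (by norm_num) hr2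
  have e1 : m1B w ρ a b / ρ = 2 * i + 2 * (a - b / 2 + 8 * w) + ρ + (1 - 2 * i) * (b + 1) := by
    unfold m1B
    rw [div_eq_iff hρ]
    have : i * ρ = 1 := hiρ
    linear_combination (-2 + 2 * (b + 1)) * this
  have e2 : (1 - i - t) * jA ρ b = (ρ - 1 - t * ρ) * ρ + (ρ - 1 - t * ρ) * (b + 1) := by
    unfold jA
    linear_combination (-ρ - (b + 1)) * hiρ
  have e3 : t * qB C K w b L = t * (C * K ^ 10) + 4 * (i + t * ρ) * (4 * w + 2) +
      2 * (i + t * ρ) * b + t * (7 / 4 * b) - t * L := by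
    unfold qB
    linear_combination (4 * (4 * w + 2) + 2 * b) * hts
  rw [e1, e2, e3]
  have c1 : t * (C * K ^ 10) ≤ C * K ^ 10 * w := by
    have h1 : (0 : ℝ) ≤ C * K ^ 10 := by positivity
    nlinarith
  have c2 : 4 * (i + t * ρ) * (4 * w + 2) ≤ 4 * 1 * (4 * w + 2) := by
    apply mul_le_mul_of_nonneg_right _ (by linarith)
    linarith
  have c3 : (ρ - 1 - t * ρ) * ρ ≤ ρ ^ 2 := by
    have h1 : 0 ≤ t * ρ := by positivity
    nlinarith
  have d1 := h.size1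
  have d2 := h.a2
  have d4 : t * ((ρ - 3 / 4) * b - w) ≤ t * (L - (ρ + 7 / 4) * b) := by
    apply mul_le_mul_of_nonneg_left _ ht0.le
    linarith
  have d5 : t * b - w ≤ t * ((ρ - 3 / 4) * b - w) := by
    have h1 : t * w ≤ 1 * w := mul_le_mul_of_nonneg_right ht1 (by linarith)
    have h2 : t * b ≤ t * ((ρ - 3 / 4) * b) := by
      apply mul_le_mul_of_nonneg_left _ ht0.le
      nlinarith
    have h3 : t * ((ρ - 3 / 4) * b - w) = t * ((ρ - 3 / 4) * b) - t * w := by ring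
    linarith
  have tr0 : 0 ≤ t * ρ := by positivity
  have key : (L / 2 - b / 2 + w + 1) + (2 * ρ + 11) +
      (2 * i + 2 * (a - b / 2 + 8 * w) + ρ + (1 - 2 * i) * (b + 1)) +
      ((ρ - 1 - t * ρ) * ρ + (ρ - 1 - t * ρ) * (b + 1)) +
      (t * (C * K ^ 10) + 4 * (i + t * ρ) * (4 * w + 2) + 2 * (i + t * ρ) * b +
        t * (7 / 4 * b) - t * L) =
      L / 2 + (2 * a + (ρ - 3 / 2) * b) - t * (L - (ρ + 7 / 4) * b) +
      (w + 1 + (2 * ρ + 11) + 2 * i + 16 * w + ρ + (1 - 2 * i) + (ρ - 1 - t * ρ) * ρ +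
        (ρ - 1 - t * ρ) + t * (C * K ^ 10) + 4 * (i + t * ρ) * (4 * w + 2)) := by
    ring
  rw [key]
  unfold MB
  have hρ2 : ρ ≤ ρ ^ 2 := by nlinarith
  have hρw : ρ ^ 2 ≤ ρ ^ 2 * w := by nlinarith [sq_nonneg ρ]
  nlinarith

theorem num2B {w ρ a b L t C K : ℝ} (h : RB w ρ a b L) (hC : 0 ≤ C)
    (hs : ρ + 4 ≤ K ^ 3) (ht : t = 1 / (ρ * (K ^ 3 - ρ))) :
    (L / 2 - b / 2 + w + 1) + (2 * ρ + 11) + m2B w ρ a b / ρ + (1 - 1 / ρ - t) * jA ρ b +
      t * qB C K w b L ≤ L - t * b + MB C ρ K * w := by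
  obtain ⟨ht0, ht1, htr, hts, -⟩ := t_facts h.r2 hs ht
  have hr2 := h.r2
  have hρ : ρ ≠ 0 := by linarith
  have hρ0 : 0 < ρ := by linarith
  have hw1 := h.w1
  have hb0 : 0 ≤ b := by
    have := h.bl
    nlinarith
  set i : ℝ := 1 / ρ with hi
  have hiρ : i * ρ = 1 := by rw [hi]; field_simp
  have hi0 : 0 < i := by rw [hi]; positivity
  have hi2 : i ≤ 1 / 2 := by rw [hi]; exact one_div_le_one_div_of_le (by norm_num) hr2
  have e1 : m2B w ρ a b / ρ = 2 * i + (1 - i) * (2 * ρ + b + 1) + (a - b / 2 + 8 * w) + ρ * w := by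
    unfold m2B
    rw [div_eq_iff hρ]
    linear_combination (-2 + (2 * ρ + b + 1)) * hiρ
  have e2 : (1 - i - t) * jA ρ b = (ρ - 1 - t * ρ) * ρ + (ρ - 1 - t * ρ) * (b + 1) := by
    unfold jA
    linear_combination (-ρ - (b + 1)) * hiρ
  have e3 : t * qB C K w b L = t * (C * K ^ 10) + 4 * (i + t * ρ) * (4 * w + 2) +
      2 * (i + t * ρ) * b + t * (7 / 4 * b) - t * L := by
    unfold qB
    linear_combination (4 * (4 * w + 2) + 2 * b) * hts
  rw [e1, e2, e3]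
  have c1 : t * (C * K ^ 10) ≤ C * K ^ 10 * w := by
    have h1 : (0 : ℝ) ≤ C * K ^ 10 := by positivity
    nlinarith
  have c2 : 4 * (i + t * ρ) * (4 * w + 2) ≤ 4 * 1 * (4 * w + 2) := by
    apply mul_le_mul_of_nonneg_right _ (by linarith)
    linarith
  have c3 : (ρ - 1 - t * ρ) * ρ ≤ ρ ^ 2 := by
    have h1 : 0 ≤ t * ρ := by positivity
    nlinarith
  have c5 : (1 - i) * (2 * ρ + 1) ≤ 2 * ρ + 1 := by
    have : 0 ≤ i * (2 * ρ + 1) := by positivity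
    nlinarith
  have c6 : i * b ≤ 1 / 2 * b := mul_le_mul_of_nonneg_right hi2 hb0
  have d1 := h.size1
  have d2 := h.a2
  have d4 : t * ((ρ - 3 / 4) * b - w) ≤ t * (L - (ρ + 7 / 4) * b) := by
    apply mul_le_mul_of_nonneg_left _ ht0.le
    linarith
  have d5 : t * b - w ≤ t * ((ρ - 3 / 4) * b - w) := by
    have h1 : t * w ≤ 1 * w := mul_le_mul_of_nonneg_right ht1 (by linarith)
    have h2 : t * b ≤ t * ((ρ - 3 / 4) * b) := by
      apply mul_le_mul_of_nonneg_left _ ht0.le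
      nlinarith
    have h3 : t * ((ρ - 3 / 4) * b - w) = t * ((ρ - 3 / 4) * b) - t * w := by ring
    linarith
  have tr0 : 0 ≤ t * ρ := by positivity
  have key : (L / 2 - b / 2 + w + 1) + (2 * ρ + 11) +
      (2 * i + (1 - i) * (2 * ρ + b + 1) + (a - b / 2 + 8 * w) + ρ * w) +
      ((ρ - 1 - t * ρ) * ρ + (ρ - 1 - t * ρ) * (b + 1)) +
      (t * (C * K ^ 10) + 4 * (i + t * ρ) * (4 * w + 2) + 2 * (i + t * ρ) * b +
        t * (7 / 4 * b) - t * L) =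
      L / 2 + (a + (ρ - 1) * b + i * b) - t * (L - (ρ + 7 / 4) * b) +
      (w + 1 + (2 * ρ + 11) + 2 * i + (1 - i) * (2 * ρ + 1) + 8 * w + ρ * w +
        (ρ - 1 - t * ρ) * ρ +
        (ρ - 1 - t * ρ) + t * (C * K ^ 10) + 4 * (i + t * ρ) * (4 * w + 2)) := by
    ring
  rw [key]
  unfold MB
  have hρ2 : ρ ≤ ρ ^ 2 := by nlinarith
  have hρw : ρ ^ 2 ≤ ρ ^ 2 * w := by nlinarith [sq_nonneg ρ]
  have hρw2 : ρ * w ≤ ρ ^ 2 * w := by nlinarith
  nlinarith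

end Pool.Agent.Helper10.PS

namespace Pool.Agent.Helper58.PS

open Finset Pool.Agent.Helper6.Lehmer Pool.Agent.Helper6.LehmerCount Pool.Agent.Helper58.LT
open Pool.Agent.Helper72.CA Pool.Agent.Helper10.PS

/-- PS-2: case A with bounded parameters -/
theorem classA (r : ℕ) (hr : 2 ≤ r) (ε : ℝ) (hε : 0 < ε) :
    ∃ τ₀ : ℝ, 0 < τ₀ ∧ ∃ δ : ℝ, 0 < δ ∧ ∃ l₀ : ℕ, ∀ (l W k α β : ℕ) (S : Finset ℕ),
      l₀ ≤ l → 1 ≤ W → (W : ℝ) ≤ τ₀ * l → ε * l ≤ β → |(l : ℝ) - (2 * r + 1) * β| ≤ W →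
      |(α : ℝ) - β| ≤ W →
      (∀ n ∈ S, Idx n k ∧ n ≤ 2 ^ l ∧ 2 ^ (l - 1) < n ∧ DataA n l W k r α β) →
      (#S : ℝ) ≤ (2 : ℝ) ^ ((1 / 2 - δ) * (l : ℝ)) := by
  obtain ⟨C, hC0, hHM⟩ := HM
  have hr2 : (2 : ℝ) ≤ r := by exact_mod_cast hr
  set K : ℝ := ((8 * r + 8 : ℕ) : ℝ) with hK
  have hK8 : K = 8 * r + 8 := by rw [hK]; push_cast; ring
  have hK0 : 0 ≤ K := by rw [hK8]; positivity
  have hs : (r : ℝ) + 4 ≤ K ^ 3 := by
    have h1 : 1 ≤ K := by rw [hK8]; linarith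
    have h2 : K ≤ K ^ 3 := by
      calc K = K ^ 1 := (pow_one K).symm
        _ ≤ K ^ 3 := pow_le_pow_right₀ h1 (by norm_num)
    rw [hK8] at h2 ⊢
    linarith
  set t : ℝ := 1 / ((r : ℝ) * (K ^ 3 - r)) with ht
  obtain ⟨ht0, ht1, htr, hts, hexp⟩ := t_facts hr2 hs ht
  set M : ℝ := MB C r K with hM
  have hM0 : 0 < M := by
    rw [hM]
    unfold MB
    positivity
  refine ⟨min (ε / (80 * r)) (t * ε / (4 * M)), ?_, t * ε / 4, by positivity, 0, ?_⟩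
  · apply lt_min <;> positivity
  intro l W k α β S _ hW hWl hβ hsize hα hS
  have hlog : (0 : ℝ) < Real.log 2 := Real.log_pos (by norm_num)
  have hlog2 : (1 : ℝ) / 2 ≤ Real.log 2 := by
    have := Real.log_two_gt_d9
    linarith
  have hlog1 : Real.log 2 ≤ 1 := by
    have := Real.log_two_lt_d9
    linarith
  have hl0 : (0 : ℝ) ≤ l := Nat.cast_nonneg l
  have hw1 : (1 : ℝ) ≤ W := by exact_mod_cast hW
  have hW1 : (W : ℝ) ≤ ε / (80 * r) * l := hWl.trans (by gcongr; exact min_le_left _ _)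
  have hW2 : (W : ℝ) ≤ t * ε / (4 * M) * l := hWl.trans (by gcongr; exact min_le_right _ _)
  have hsz := abs_le.1 hsize
  have hal := abs_le.1 hα
  set b : ℝ := (β : ℝ) * Real.log 2 with hb
  set a : ℝ := (α : ℝ) * Real.log 2 with ha
  set L : ℝ := (l : ℝ) * Real.log 2 with hL
  have hL0 : 0 ≤ L := by rw [hL]; positivity
  have hlL : (l : ℝ) ≤ 2 * L := by rw [hL]; nlinarith
  have hbL : ε * L ≤ b := by
    rw [hL, hb]
    nlinarith
  have hWlog : (W : ℝ) * Real.log 2 ≤ W := by nlinarith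
  have hR : RB (W : ℝ) (r : ℝ) a b L := {
    w1 := hw1
    r2 := hr2
    size1 := by
      have := mul_le_mul_of_nonneg_right hsz.1 hlog.le
      rw [hL, hb]
      nlinarith
    size2 := by
      have := mul_le_mul_of_nonneg_right hsz.2 hlog.le
      rw [hL, hb]
      nlinarith
    a1 := by
      have := mul_le_mul_of_nonneg_right hal.1 hlog.le
      rw [ha, hb]
      nlinarith
    a2 := by
      have := mul_le_mul_of_nonneg_right hal.2 hlog.le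
      rw [ha, hb]
      nlinarith
    bl := by
      have h1 : 40 * (r : ℝ) * W ≤ 40 * r * (ε / (80 * r) * l) := by gcongr
      have h2 : 40 * (r : ℝ) * (ε / (80 * r) * l) = ε * (l / 2) := by
        field_simp
        ring
      have h3 : ε * ((l : ℝ) / 2) ≤ ε * L := by gcongr; linarith
      linarith }
  obtain ⟨m, hm, hmom⟩ := momB hHM (k := k) hW hr hR ht hexp ht0.le
  have hcount := countA hS
  have hnum : (L / 2 - b / 2 + W + 1) + (2 * (r : ℝ) + 11) + m / r +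
      (1 - 1 / (r : ℝ) - t) * jA r b + t * qB C K W b L ≤ L - t * b + M * W := by
    rcases hm with rfl | rfl
    · exact num1B hR hC0.le hs ht
    · exact num2B hR hC0.le hs ht
  have hF : (2 : ℝ) ^ ((l : ℝ) / 2 - (β : ℝ) / 2) * Real.exp (W + 1) =
      Real.exp (L / 2 - b / 2 + W + 1) := by
    rw [Real.rpow_def_of_pos (by norm_num), ← Real.exp_add]
    congr 1
    rw [hL, hb]
    ring
  have h2r : (2 * (r : ℝ) + 11) ≤ Real.exp (2 * r + 11) := by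
    have := Real.add_one_le_exp (2 * (r : ℝ) + 11)
    linarith
  have hMW : M * W ≤ t * ε / 2 * L := by
    have h1 : M * (W : ℝ) ≤ M * (t * ε / (4 * M) * l) := by gcongr
    have h2 : M * (t * ε / (4 * M) * l) = t * ε / 4 * l := by
      field_simp
    have h3 : t * ε / 4 * (l : ℝ) ≤ t * ε / 4 * (2 * L) := by gcongr
    linarith
  have htb : t * (ε * L) ≤ t * b := by gcongr
  have hsq : (#S : ℝ) ^ 2 ≤ Real.exp (L - t * ε / 2 * L) := by
    refine hcount.trans ?_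
    rw [hF]
    calc _ ≤ Real.exp (L / 2 - b / 2 + W + 1) * Real.exp (2 * r + 11) *
          Real.exp (m / r + (1 - 1 / (r : ℝ) - t) * jA r b + t * qB C K W b L) := by gcongr
      _ ≤ _ := by
          rw [← Real.exp_add, ← Real.exp_add]
          apply Real.exp_le_exp.2
          linarith
  have htar : Real.exp (L - t * ε / 2 * L) =
      ((2 : ℝ) ^ ((1 / 2 - t * ε / 4) * (l : ℝ))) ^ 2 := by
    rw [Real.rpow_def_of_pos (by norm_num), ← Real.exp_nat_mul]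
    congr 1
    rw [hL]
    push_cast
    ring
  rw [htar] at hsq
  exact (abs_le_of_sq_le_sq' hsq (by positivity)).2

end Pool.Agent.Helper58.PS
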